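import Mathlib

/-!
# A pair of minimal homeomorphisms without jointly recurrent diagonal points (S06623): definitions

Levels of words over the alphabet `ZMod 3`, the legal sequences, the space `YS` (phases and
sequences), the space `DS` of pairs of sequences which agree at time 0 and differ at all other
times, and the map `T0`.
-/

set_option autoImplicit false

noncomputable section

namespace Run7.h979.JR

open Finset Classical

/-- A level: a finite set `V` of words of length `len` with letters `lt v i` (`i < len`) and the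
letterwise shift `s` by one. -/
structure Lv where
  V : Type
  fin : Fintype V
  ne : Nonempty V
  len : ℕ
  pos : 0 < len
  lt : V → ℕ → ZMod 3
  s : V → V
  hs : ∀ v i, lt (s v) i = lt v i + 1
  s3 : ∀ v, s (s (s v)) = v

attribute [instance] Lv.fin Lv.ne

/-- two words differ at all places -/
def Lv.R (L : Lv) (v w : L.V) : Prop := ∀ i : ℕ, i < L.len → L.lt v i ≠ L.lt w i

/-- the graph `R` is connected: a nonempty set closed under `R` is everything -/
def Lv.Conn (L : Lv) : Prop :=
  ∀ Z : Set L.V, Z.Nonempty → (∀ v ∈ Z, ∀ w, L.R v w → w ∈ Z) → ∀ w, w ∈ Z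

/-- the number of words of level `L` in a word of the next level -/
def Lv.N (L : Lv) (M : ℕ) : ℕ := 4 * Fintype.card L.V + M

theorem Lv.N_pos (L : Lv) (M : ℕ) : 0 < L.N M := by
  have : 0 < Fintype.card L.V := Fintype.card_pos
  unfold Lv.N
  omega

/-- `FILL`: a word of the next level with prescribed first `M` blocks. -/
theorem Lv.fill (L : Lv) (M : ℕ) (g : ℕ → L.V) : ∃ f : Fin (L.N M) → L.V,
    (∀ v, 4 ≤ (univ.filter (fun j => f j = v)).card) ∧ ∀ j : Fin (L.N M), j.1 < M → f j = g j.1 := by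
  have hc : 0 < Fintype.card L.V := Fintype.card_pos
  let e := Fintype.equivFin L.V
  let f : Fin (L.N M) → L.V := fun j =>
    if j.1 < M then g j.1 else e.symm ⟨(j.1 - M) % Fintype.card L.V, Nat.mod_lt _ hc⟩
  refine ⟨f, ?_, ?_⟩
  · intro v
    have hlt : ∀ t : Fin 4, M + ((e v).1 + t.1 * Fintype.card L.V) < L.N M := by
      intro t
      have h1 := (e v).2
      have h2 : t.1 * Fintype.card L.V ≤ 3 * Fintype.card L.V :=
        Nat.mul_le_mul_right _ (by omega)
      unfold Lv.N
      omega
    let φ : Fin 4 → Fin (L.N M) := fun t => ⟨M + ((e v).1 + t.1 * Fintype.card L.V), hlt t⟩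
    have hinj : Function.Injective φ := by
      intro a b hab
      have h1 : M + ((e v).1 + a.1 * Fintype.card L.V) = M + ((e v).1 + b.1 * Fintype.card L.V) :=
        congrArg Fin.val hab
      have h2 : a.1 * Fintype.card L.V = b.1 * Fintype.card L.V := by omega
      exact Fin.ext (Nat.eq_of_mul_eq_mul_right hc h2)
    have hsub : (univ.image φ) ⊆ univ.filter (fun j => f j = v) := by
      intro j hj
      obtain ⟨t, -, rfl⟩ := mem_image.1 hj
      refine mem_filter.2 ⟨mem_univ _, ?_⟩
      show (if M + ((e v).1 + t.1 * Fintype.card L.V) < M then _ else _) = v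
      rw [if_neg (by omega)]
      have h1 : (M + ((e v).1 + t.1 * Fintype.card L.V) - M) % Fintype.card L.V = (e v).1 := by
        rw [Nat.add_sub_cancel_left, Nat.add_mul_mod_self_right, Nat.mod_eq_of_lt (e v).2]
      have h2 : (⟨(M + ((e v).1 + t.1 * Fintype.card L.V) - M) % Fintype.card L.V,
          Nat.mod_lt _ hc⟩ : Fin (Fintype.card L.V)) = e v := Fin.ext h1
      rw [h2, e.symm_apply_apply]
    calc 4 = (univ.image φ).card := by rw [card_image_of_injective _ hinj]; simp
      _ ≤ _ := card_le_card hsub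
  · intro j hj
    show (if j.1 < M then _ else _) = _
    rw [if_pos hj]

/-- The next level: words of `4 * card V + M` blocks in which every block of level `L` occurs at
least four times. -/
def Lv.next (L : Lv) (M : ℕ) : Lv where
  V := {f : Fin (L.N M) → L.V // ∀ v, 4 ≤ (univ.filter (fun j => f j = v)).card}
  fin := inferInstance
  ne := by
    obtain ⟨f, hf, -⟩ := L.fill M (fun _ => Classical.choice L.ne)
    exact ⟨⟨f, hf⟩⟩
  len := L.N M * L.len
  pos := Nat.mul_pos (L.N_pos M) L.pos
  lt f i := L.lt (f.1 ⟨(i / L.len) % L.N M, Nat.mod_lt _ (L.N_pos M)⟩) (i % L.len)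
  s f := ⟨fun j => L.s (f.1 j), by
    intro v
    have h : (univ.filter (fun j => L.s (f.1 j) = v)) =
        univ.filter (fun j => f.1 j = L.s (L.s v)) := by
      ext j
      simp only [mem_filter, mem_univ, true_and]
      constructor
      · intro h
        rw [← h, L.s3]
      · intro h
        rw [h, L.s3]
    rw [h]
    exact f.2 _⟩
  hs f i := L.hs _ _
  s3 f := Subtype.ext (funext fun j => L.s3 _)

@[simp] theorem Lv.next_len (L : Lv) (M : ℕ) : (L.next M).len = L.N M * L.len := rfl

theorem Lv.next_lt (L : Lv) (M : ℕ) (f : (L.next M).V) (j : Fin (L.N M)) (i : ℕ)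
    (hi : i < L.len) : (L.next M).lt f (j.1 * L.len + i) = L.lt (f.1 j) i := by
  show L.lt (f.1 ⟨((j.1 * L.len + i) / L.len) % L.N M, _⟩) ((j.1 * L.len + i) % L.len) = _
  have h1 : (j.1 * L.len + i) / L.len = j.1 := by
    rw [Nat.add_comm, Nat.add_mul_div_right _ _ L.pos, Nat.div_eq_of_lt hi, Nat.zero_add]
  have h2 : (j.1 * L.len + i) % L.len = i := by
    rw [Nat.add_comm, Nat.add_mul_mod_self_right, Nat.mod_eq_of_lt hi]
  have h3 : (⟨((j.1 * L.len + i) / L.len) % L.N M, Nat.mod_lt _ (L.N_pos M)⟩ : Fin (L.N M)) = j :=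
    Fin.ext (by
      show ((j.1 * L.len + i) / L.len) % L.N M = j.1
      rw [h1, Nat.mod_eq_of_lt j.2])
  rw [h3, h2]

/-- every position in a long word is in a block -/
theorem Lv.pos_split (L : Lv) (M : ℕ) (n : ℕ) (hn : n < (L.next M).len) :
    ∃ (j : Fin (L.N M)) (i : ℕ), i < L.len ∧ n = j.1 * L.len + i := by
  refine ⟨⟨n / L.len, Nat.div_lt_of_lt_mul (by rw [Nat.mul_comm]; exact hn)⟩, n % L.len,
    Nat.mod_lt _ L.pos, ?_⟩
  show n = n / L.len * L.len + n % L.len
  rw [Nat.mul_comm]
  exact (Nat.div_add_mod n L.len).symm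

theorem Lv.next_R (L : Lv) (M : ℕ) (f g : (L.next M).V) :
    (L.next M).R f g ↔ ∀ j, L.R (f.1 j) (g.1 j) := by
  constructor
  · intro h j i hi
    have h1 : j.1 * L.len + i < (L.next M).len := by
      have h2 : (j.1 + 1) * L.len ≤ L.N M * L.len := Nat.mul_le_mul_right _ j.2
      have h3 : (j.1 + 1) * L.len = j.1 * L.len + L.len := by ring
      show j.1 * L.len + i < L.N M * L.len
      omega
    have h2 := h _ h1
    rwa [L.next_lt M f j i hi, L.next_lt M g j i hi] at h2
  · intro h n hn
    obtain ⟨j, i, hi, rfl⟩ := L.pos_split M n hn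
    rw [L.next_lt M f j i hi, L.next_lt M g j i hi]
    exact h j i hi

theorem Lv.R_symm (L : Lv) {v w : L.V} (h : L.R v w) : L.R w v := fun i hi => (h i hi).symm

theorem Lv.R_s (L : Lv) (v : L.V) : L.R v (L.s v) := by
  intro i _
  rw [L.hs]
  intro h
  exact absurd h (by generalize L.lt v i = a; revert a; decide)

/-- `Leg L u`: cut at the multiples of the length, `u` is a concatenation of words of level `L`. -/
def Leg (L : Lv) (u : ℤ → ZMod 3) : Prop :=
  ∀ t : ℤ, ∃ v : L.V, ∀ i : ℕ, i < L.len → u (t * L.len + i) = L.lt v i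

theorem Leg.shift {L : Lv} {u : ℤ → ZMod 3} (h : Leg L u) (c : ℤ) :
    Leg L (fun n => u (n + c * L.len)) := by
  intro t
  obtain ⟨v, hv⟩ := h (t + c)
  refine ⟨v, fun i hi => ?_⟩
  rw [← hv i hi]
  show u (t * L.len + i + c * L.len) = _
  congr 1
  ring

/-- a long word at `t` and its blocks -/
theorem sub_iff (L : Lv) (M : ℕ) (u : ℤ → ZMod 3) (t : ℤ) (w : (L.next M).V) :
    (∀ i : ℕ, i < (L.next M).len → u (t * (L.next M).len + i) = (L.next M).lt w i) ↔
    ∀ j : Fin (L.N M), ∀ i : ℕ, i < L.len →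
      u ((t * L.N M + j.1) * L.len + i) = L.lt (w.1 j) i := by
  constructor
  · intro h j i hi
    have h1 : j.1 * L.len + i < (L.next M).len := by
      have h2 : (j.1 + 1) * L.len ≤ L.N M * L.len := Nat.mul_le_mul_right _ j.2
      have h3 : (j.1 + 1) * L.len = j.1 * L.len + L.len := by ring
      show j.1 * L.len + i < L.N M * L.len
      omega
    have h2 := h _ h1
    rw [L.next_lt M w j i hi] at h2
    rw [← h2]
    congr 1
    rw [L.next_len]
    push_cast
    ring
  · intro h n hn
    obtain ⟨j, i, hi, rfl⟩ := L.pos_split M n hn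
    rw [L.next_lt M w j i hi, ← h j i hi]
    congr 1
    rw [L.next_len]
    push_cast
    ring

theorem Leg.down {L : Lv} {M : ℕ} {u : ℤ → ZMod 3} (h : Leg (L.next M) u) : Leg L u := by
  intro t
  have hN : (0 : ℤ) < L.N M := by exact_mod_cast L.N_pos M
  obtain ⟨w, hw⟩ := h (t / L.N M)
  rw [sub_iff] at hw
  have h1 : 0 ≤ t % L.N M := Int.emod_nonneg _ hN.ne'
  have h2 : t % L.N M < L.N M := Int.emod_lt_of_pos _ hN
  refine ⟨w.1 ⟨(t % L.N M).toNat, by omega⟩, fun i hi => ?_⟩
  rw [← hw ⟨(t % L.N M).toNat, by omega⟩ i hi]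
  congr 3
  show t = t / L.N M * L.N M + (((t % L.N M).toNat : ℕ) : ℤ)
  rw [Int.toNat_of_nonneg h1, Int.mul_comm]
  exact (Int.mul_ediv_add_emod t (L.N M)).symm

/-- the first level: single letters -/
def base : Lv where
  V := ZMod 3
  fin := inferInstance
  ne := ⟨0⟩
  len := 1
  pos := Nat.one_pos
  lt a _ := a
  s a := a + 1
  hs _ _ := rfl
  s3 := by decide

/-- the surplus at level `k` -/
def MM (k : ℕ) : ℕ := 2 ^ (k + 2) + 1

/-- the levels -/
def Lk : ℕ → Lv
  | 0 => base
  | k + 1 => (Lk k).next (MM k)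

theorem Lk_succ (k : ℕ) : Lk (k + 1) = (Lk k).next (MM k) := rfl

/-- the length at level `k` -/
def ell (k : ℕ) : ℕ := (Lk k).len

theorem ell_zero : ell 0 = 1 := rfl

theorem ell_succ (k : ℕ) : ell (k + 1) = (Lk k).N (MM k) * ell k := rfl

theorem ell_pos (k : ℕ) : 0 < ell k := (Lk k).pos

instance (k : ℕ) : NeZero (ell k) := ⟨(ell_pos k).ne'⟩

theorem ell_odd (k : ℕ) : Odd (ell k) := by
  induction k with
  | zero => exact ⟨0, rfl⟩
  | succ k ih =>
    rw [ell_succ]
    refine Nat.odd_mul.2 ⟨?_, ih⟩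
    refine ⟨2 * Fintype.card (Lk k).V + 2 ^ (k + 1), ?_⟩
    unfold Lv.N MM
    rw [pow_succ]
    ring

theorem ell_dvd_succ (k : ℕ) : ell k ∣ ell (k + 1) := ⟨(Lk k).N (MM k), by
  rw [ell_succ, Nat.mul_comm]⟩

theorem ell_dvd {j k : ℕ} (h : j ≤ k) : ell j ∣ ell k := by
  induction h with
  | refl => exact dvd_rfl
  | step _ ih => exact ih.trans (ell_dvd_succ _)

theorem ell_ge (k : ℕ) : k + 1 ≤ ell k := by
  induction k with
  | zero => exact le_rfl
  | succ k ih =>
    rw [ell_succ]
    have h1 : 2 ≤ (Lk k).N (MM k) := by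
      unfold Lv.N MM
      have : 1 ≤ 2 ^ (k + 2) := Nat.one_le_two_pow
      omega
    have h2 : 2 * ell k ≤ (Lk k).N (MM k) * ell k := Nat.mul_le_mul_right _ h1
    omega

theorem ell_mono {j k : ℕ} (h : j ≤ k) : ell j ≤ ell k := Nat.le_of_dvd (ell_pos k) (ell_dvd h)

/-- sequences -/
abbrev Sq := ℤ → ZMod 3

/-- phases -/
abbrev Ph := ∀ k : ℕ, ZMod (ell k)

/-- The base space: compatible phases `ζ` and a sequence `u` all of whose blocks are legal; the
blocks of level `k` of `u` start at the positions `n` with `n + ζ k = 0`. -/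
def YS : Set (Ph × Sq) :=
  {y | ∀ k, (∃ z : ℤ, ∀ j ≤ k, y.1 j = (z : ZMod (ell j))) ∧
    ∀ z : ℤ, y.1 k = (z : ZMod (ell k)) → Leg (Lk k) (fun n => y.2 (n - z))}

/-- the pairs of points of the base space with the same phases which agree at time 0 and differ
at all other times -/
def DS : Set (Ph × Sq × Sq) :=
  {d | (d.1, d.2.1) ∈ YS ∧ (d.1, d.2.2) ∈ YS ∧ d.2.1 0 = d.2.2 0 ∧
    ∀ n : ℤ, n ≠ 0 → d.2.1 n ≠ d.2.2 n}

/-- the first projection -/
def p1 (d : DS) : YS := ⟨(d.1.1, d.1.2.1), d.2.1⟩

/-- the second projection -/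
def p2 (d : DS) : YS := ⟨(d.1.1, d.1.2.2), d.2.2.1⟩

theorem shift_mem {y : Ph × Sq} (hy : y ∈ YS) (c : ℤ) :
    ((fun k => y.1 k + (c : ZMod (ell k)), fun n => y.2 (n + c)) : Ph × Sq) ∈ YS := by
  intro k
  obtain ⟨⟨z, hz⟩, h2⟩ := hy k
  refine ⟨⟨z + c, fun j hj => ?_⟩, fun w hw => ?_⟩
  · show y.1 j + (c : ZMod (ell j)) = _
    rw [hz j hj]
    push_cast
    rfl
  · have h3 : y.1 k = ((w - c : ℤ) : ZMod (ell k)) := by
      push_cast
      rw [← hw]
      show y.1 k = y.1 k + (c : ZMod (ell k)) - c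
      ring
    have h4 := h2 _ h3
    have h5 : (fun n : ℤ => y.2 (n - (w - c))) = fun n : ℤ => y.2 (n - w + c) := by
      funext n
      congr 1
      ring
    rw [h5] at h4
    exact h4

/-- the map of the base space -/
def T0 : YS ≃ₜ YS where
  toFun y := ⟨(fun k => y.1.1 k + ((1 : ℤ) : ZMod (ell k)), fun n => y.1.2 (n + 1)), shift_mem y.2 1⟩
  invFun y := ⟨(fun k => y.1.1 k + ((-1 : ℤ) : ZMod (ell k)), fun n => y.1.2 (n + -1)),
    shift_mem y.2 (-1)⟩
  left_inv y := by
    apply Subtype.ext
    refine Prod.ext ?_ ?_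
    · funext k
      show y.1.1 k + ((1 : ℤ) : ZMod (ell k)) + ((-1 : ℤ) : ZMod (ell k)) = y.1.1 k
      push_cast
      ring
    · funext n
      show y.1.2 (n + -1 + 1) = y.1.2 n
      congr 1
      ring
  right_inv y := by
    apply Subtype.ext
    refine Prod.ext ?_ ?_
    · funext k
      show y.1.1 k + ((-1 : ℤ) : ZMod (ell k)) + ((1 : ℤ) : ZMod (ell k)) = y.1.1 k
      push_cast
      ring
    · funext n
      show y.1.2 (n + 1 + -1) = y.1.2 n
      congr 1
      ring
  continuous_toFun := by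
    refine Continuous.subtype_mk (Continuous.prodMk (continuous_pi fun k => ?_)
      (continuous_pi fun n => ?_)) _
    · exact ((continuous_apply k).comp (continuous_fst.comp continuous_subtype_val)).add
        continuous_const
    · exact (continuous_apply (n + 1)).comp (continuous_snd.comp continuous_subtype_val)
  continuous_invFun := by
    refine Continuous.subtype_mk (Continuous.prodMk (continuous_pi fun k => ?_)
      (continuous_pi fun n => ?_)) _
    · exact ((continuous_apply k).comp (continuous_fst.comp continuous_subtype_val)).add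
        continuous_const
    · exact (continuous_apply (n + -1)).comp (continuous_snd.comp continuous_subtype_val)

theorem T0_iter (n : ℕ) : ∀ y : YS, ((T0)^[n] y).1 =
    ((fun k => y.1.1 k + (n : ZMod (ell k)), fun i => y.1.2 (i + n)) : Ph × Sq) := by
  induction n with
  | zero =>
    intro y
    refine Prod.ext ?_ ?_
    · funext k
      simp
    · funext i
      simp
  | succ n ih =>
    intro y
    rw [Function.iterate_succ_apply, ih]
    refine Prod.ext ?_ ?_
    · funext k
      show y.1.1 k + ((1 : ℤ) : ZMod (ell k)) + (n : ZMod (ell k)) = y.1.1 k + ((n + 1 : ℕ) : ZMod (ell k))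
      push_cast
      ring
    · funext i
      show y.1.2 (i + n + 1) = y.1.2 (i + ((n + 1 : ℕ) : ℤ))
      congr 1
      push_cast
      ring

end Run7.h979.JR
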