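import Pool.Agent.Run7.h979.JR.Iface

set_option autoImplicit false

noncomputable section

namespace Run7.h979.JR

open Finset Classical

/-- block coordinates of an integer -/
theorem blk (L : Lv) (n : ℤ) : ∃ i : ℕ, i < L.len ∧ n = n / (L.len : ℤ) * L.len + i := by
  have hl : (0 : ℤ) < L.len := by exact_mod_cast L.pos
  have h1 := Int.emod_nonneg n hl.ne'
  have h2 := Int.emod_lt_of_pos n hl
  refine ⟨(n % L.len).toNat, by omega, ?_⟩
  rw [Int.toNat_of_nonneg h1, Int.mul_comm]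
  exact (Int.mul_ediv_add_emod n L.len).symm

theorem blk_div (L : Lv) (q : ℤ) (i : ℕ) (hi : i < L.len) :
    (q * (L.len : ℤ) + i) / (L.len : ℤ) = q := by
  have hl : (0 : ℤ) < L.len := by exact_mod_cast L.pos
  rw [Int.add_comm, Int.add_mul_ediv_right _ _ hl.ne', Int.ediv_eq_zero_of_lt (by omega) (by omega)]
  ring

theorem blk_mod (L : Lv) (q : ℤ) (i : ℕ) (hi : i < L.len) :
    ((q * (L.len : ℤ) + i) % (L.len : ℤ)).toNat = i := by
  have hl : (0 : ℤ) < L.len := by exact_mod_cast L.pos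
  rw [Int.add_comm, Int.add_mul_emod_self_right, Int.emod_eq_of_lt (by omega) (by omega)]
  simp

theorem t_EXT (hH : S_HAL) : S_EXT := by
  intro L M hM hL u v p hu hv hp hne
  have hl : (0 : ℤ) < L.len := by exact_mod_cast L.pos
  have hN : (0 : ℤ) < L.N M := by exact_mod_cast L.N_pos M
  set J : ℤ := p / (L.len : ℤ) with hJ
  choose w hw using hu
  have hw' : ∀ t, ∀ j : Fin (L.N M), ∀ i : ℕ, i < L.len →
      u ((t * L.N M + j.1) * L.len + i) = L.lt ((w t).1 j) i := fun t =>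
    (sub_iff L M u t (w t)).1 (hw t)
  choose b hb using hv
  let S : ℤ → Finset (Fin (L.N M)) := fun t =>
    univ.filter (fun j => |t * L.N M + j.1 - J| ≤ 1)
  have hS : ∀ t, (S t).card ≤ 3 := by
    intro t
    have h1 : (S t).card ≤ (Finset.Icc (J - 1) (J + 1)).card := by
      refine Finset.card_le_card_of_injOn (fun j => t * L.N M + j.1) ?_ ?_
      · intro j hj
        have hj' : |t * L.N M + (j.1 : ℤ) - J| ≤ 1 := (mem_filter.1 (Finset.mem_coe.1 hj)).2
        rw [abs_le] at hj'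
        show t * L.N M + (j.1 : ℤ) ∈ _
        rw [Finset.coe_Icc, Set.mem_Icc]
        constructor <;> omega
      · intro j _ j' _ h
        have h' : t * L.N M + (j.1 : ℤ) = t * L.N M + (j'.1 : ℤ) := h
        exact Fin.ext (by omega)
    refine h1.trans ?_
    rw [Int.card_Icc]
    omega
  choose z hz1 hz2 using fun t => hH L M hM hL (w t).1 (w t).2 (S t) (hS t)
  let f : ℤ → Fin (L.N M) → L.V := fun t j => if j ∈ S t then b (t * L.N M + j.1) else z t j
  have hf : ∀ t, ∀ x, 4 ≤ (univ.filter (fun j => f t j = x)).card := by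
    intro t x
    refine (hz2 t x).trans (card_le_card ?_)
    intro j hj
    have hj' := (mem_filter.1 hj).2
    refine mem_filter.2 ⟨mem_univ _, ?_⟩
    show (if j ∈ S t then _ else _) = x
    rw [if_neg hj'.1]
    exact hj'.2
  let F : ℤ → (L.next M).V := fun t => ⟨f t, hf t⟩
  let v' : ℤ → ZMod 3 := fun n =>
    L.lt (f (n / (L.len : ℤ) / (L.N M : ℤ))
      ⟨(n / (L.len : ℤ) % (L.N M : ℤ)).toNat, by
        have h1 := Int.emod_nonneg (n / (L.len : ℤ)) hN.ne'
        have h2 := Int.emod_lt_of_pos (n / (L.len : ℤ)) hN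
        omega⟩) (n % (L.len : ℤ)).toNat
  have hv' : ∀ (t : ℤ) (j : Fin (L.N M)) (i : ℕ), i < L.len →
      v' ((t * L.N M + j.1) * L.len + i) = L.lt (f t j) i := by
    intro t j i hi
    have h1 := blk_div L (t * L.N M + j.1) i hi
    have h2 := blk_mod L (t * L.N M + j.1) i hi
    have h3 : (t * (L.N M : ℤ) + j.1) / (L.N M : ℤ) = t := by
      rw [Int.add_comm, Int.add_mul_ediv_right _ _ hN.ne',
        Int.ediv_eq_zero_of_lt (by omega) (by exact_mod_cast j.2)]
      ring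
    have h4 : ((t * (L.N M : ℤ) + j.1) % (L.N M : ℤ)).toNat = j.1 := by
      rw [Int.add_comm, Int.add_mul_emod_self_right, Int.emod_eq_of_lt (by omega)
        (by exact_mod_cast j.2)]
      simp
    show L.lt (f (((t * (L.N M : ℤ) + j.1) * L.len + i) / (L.len : ℤ) / (L.N M : ℤ))
      ⟨(((t * (L.N M : ℤ) + j.1) * L.len + i) / (L.len : ℤ) % (L.N M : ℤ)).toNat, _⟩)
      (((t * (L.N M : ℤ) + j.1) * L.len + i) % (L.len : ℤ)).toNat = _
    have h5 : (⟨(((t * (L.N M : ℤ) + j.1) * L.len + i) / (L.len : ℤ) % (L.N M : ℤ)).toNat, by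
        have h1 := Int.emod_nonneg (((t * (L.N M : ℤ) + j.1) * L.len + i) / (L.len : ℤ)) hN.ne'
        have h2 := Int.emod_lt_of_pos (((t * (L.N M : ℤ) + j.1) * L.len + i) / (L.len : ℤ)) hN
        omega⟩ : Fin (L.N M)) = j := Fin.ext (by
          show (((t * (L.N M : ℤ) + j.1) * L.len + i) / (L.len : ℤ) % (L.N M : ℤ)).toNat = j.1
          rw [h1, h4])
    rw [h5, h2, h1, h3]
  -- every integer in block coordinates
  have hco : ∀ n : ℤ, ∃ (t : ℤ) (j : Fin (L.N M)) (i : ℕ), i < L.len ∧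
      n = (t * L.N M + j.1) * L.len + i ∧ n / (L.len : ℤ) = t * L.N M + j.1 := by
    intro n
    obtain ⟨i, hi, hn⟩ := blk L n
    have h1 := Int.emod_nonneg (n / (L.len : ℤ)) hN.ne'
    have h2 := Int.emod_lt_of_pos (n / (L.len : ℤ)) hN
    have h3 : n / (L.len : ℤ) = n / (L.len : ℤ) / (L.N M : ℤ) * L.N M +
        ((n / (L.len : ℤ) % (L.N M : ℤ)).toNat : ℕ) := by
      rw [Int.toNat_of_nonneg h1, Int.mul_comm (n / (L.len : ℤ) / (L.N M : ℤ))]
      exact (Int.mul_ediv_add_emod _ _).symm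
    refine ⟨n / (L.len : ℤ) / (L.N M : ℤ), ⟨(n / (L.len : ℤ) % (L.N M : ℤ)).toNat, by omega⟩,
      i, hi, ?_, h3⟩
    show n = (n / (L.len : ℤ) / (L.N M : ℤ) * L.N M +
      ((n / (L.len : ℤ) % (L.N M : ℤ)).toNat : ℕ)) * L.len + i
    rw [← h3]
    exact hn
  -- agreement in the three blocks
  have hag : ∀ n : ℤ, |n / (L.len : ℤ) - J| ≤ 1 → v' n = v n := by
    intro n hn
    obtain ⟨t, j, i, hi, h1, h2⟩ := hco n
    have hjS : j ∈ S t := mem_filter.2 ⟨mem_univ _, by rw [← h2]; exact hn⟩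
    rw [h1, hv' t j i hi, hb _ i hi]
    show L.lt (if j ∈ S t then _ else _) i = _
    rw [if_pos hjS]
  have hdiff : ∀ n : ℤ, ¬ |n / (L.len : ℤ) - J| ≤ 1 → v' n ≠ u n := by
    intro n hn
    obtain ⟨t, j, i, hi, h1, h2⟩ := hco n
    have hjS : j ∉ S t := fun h => hn (by rw [h2]; exact (mem_filter.1 h).2)
    rw [h1, hv' t j i hi, hw' t j i hi]
    show L.lt (if j ∈ S t then _ else _) i ≠ _
    rw [if_neg hjS]
    exact (hz1 t j hjS i hi).symm
  have hpp : v' p = u p := by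
    rw [hag p (by rw [← hJ]; simp), hp]
  refine ⟨v', ?_, hpp, ?_, ?_⟩
  · intro t
    refine ⟨F t, ?_⟩
    rw [sub_iff]
    intro j i hi
    exact hv' t j i hi
  · intro n hnp
    by_cases hn : |n / (L.len : ℤ) - J| ≤ 1
    · rw [hag n hn]
      exact hne n hnp
    · exact hdiff n hn
  · intro n hn
    apply hag
    rw [abs_le] at hn ⊢
    have h1 : p / (L.len : ℤ) - 1 ≤ n / (L.len : ℤ) := by
      have h2 : (p - L.len) / (L.len : ℤ) = p / (L.len : ℤ) - 1 := by
        rw [Int.sub_ediv_of_dvd _ dvd_rfl, Int.ediv_self hl.ne']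
      rw [← h2]
      exact Int.ediv_le_ediv hl (by omega)
    have h3 : n / (L.len : ℤ) ≤ p / (L.len : ℤ) + 1 := by
      have h2 : (p + L.len) / (L.len : ℤ) = p / (L.len : ℤ) + 1 := by
        rw [Int.add_ediv_of_dvd_right dvd_rfl, Int.ediv_self hl.ne']
      rw [← h2]
      exact Int.ediv_le_ediv hl (by omega)
    constructor <;> omega

end Run7.h979.JR
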