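import Pool.Agent.Run7.h979.JR.Defs

/-!
# S06623 (MP_ef2f7d_an): the pieces

Every piece is a closed `Prop` with its complete proof in the docstring.
The proof of piece `X` goes to `Pool/Agent/Run7/<you>/JR/X.lean`, theorem `t_X : (hyps →) S_X`.
No double quotes anywhere.
-/

set_option autoImplicit false

noncomputable section

namespace Run7.h979.JR

open Finset Classical

/-- PIECE TOK (finite combinatorics). `Z` is a nonempty set of functions with all fibres of size
at least 4, closed under changing the value at a coordinate `j` whose class has more than 4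
elements. Then every function with fibres of size at least 4 is in `Z`.

Proof. Given `g`, choose `f ∈ Z` with the largest number of agreements `#{i | f i = g i}` (finite
set). Suppose `f ≠ g`.
Case A: some `j` with `f j ≠ g j` and `4 < #{i | f i = f j}`: then `update f j (g j) ∈ Z` has more
agreements, contradiction.
Case B: for all `j` with `f j ≠ g j`: `#{i | f i = f j} ≤ 4`. Then `#f⁻¹ b = #g⁻¹ b` for all `b`:
if `#f⁻¹ b > 4` then all `j ∈ f⁻¹ b` have `f j = g j`, so `f⁻¹ b ⊆ g⁻¹ b`; if `#f⁻¹ b = 4` then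
`#f⁻¹ b ≤ #g⁻¹ b`; both sums are `N`, so all the inequalities are equalities
(`Finset.sum_eq_sum_iff_of_le`). Take `i` with `f i ≠ g i` and `b = g i`. As `i ∈ g⁻¹ b \ f⁻¹ b`
and the sizes agree, there is `i' ∈ f⁻¹ b \ g⁻¹ b`. Let `a = f i ≠ b`. As `4 * card V < N` some
class has more than 4 elements, choose `j` in it with `j ≠ i, i'` (the class has at least 5
elements), `s = f j`.
`f1 = update f j a ∈ Z`; then the class of `a` in `f1` has more than 4 elements (if `s = a` then
`f1 = f`; otherwise it is `f⁻¹ a ∪ {j}`), so `f2 = update f1 i b ∈ Z`; the class of `b` in `f2`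
is `f1⁻¹ b ∪ {i}`, more than 4 elements, so `f3 = update f2 i' a ∈ Z` (`f2 i' = b`); the class of
`a` in `f3` is `f2⁻¹ a ∪ {i'}`, more than 4 elements and contains `j`, so
`f4 = update f3 j s ∈ Z`. `f4` is `f` with the values at `i` and `i'` exchanged: it agrees with
`g` at `i`, and `i'` was a disagreement of `f`; more agreements, contradiction. -/
def S_TOK : Prop :=
  ∀ (V : Type) [Fintype V] (N : ℕ), 4 * Fintype.card V < N → ∀ Z : Set (Fin N → V), Z.Nonempty →
    (∀ f ∈ Z, ∀ v, 4 ≤ (univ.filter (fun j => f j = v)).card) →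
    (∀ f ∈ Z, ∀ j, 4 < (univ.filter (fun i => f i = f j)).card → ∀ v,
      Function.update f j v ∈ Z) →
    ∀ g : Fin N → V, (∀ v, 4 ≤ (univ.filter (fun j => g j = v)).card) → g ∈ Z

/-- PIECE EXP (expansion, finite). `Z` a finite set of words, `N(Z)` the set of words related to
a word of `Z`. Then `N(Z)` is everything or has at least `#Z + 1` elements.

Proof. `N(Z)` contains `s(Z)` and `s(s(Z))` (`R v (s v)`; `R (s(s v)) (s(s(s v))) = R (s(s v)) v`,
by symmetry `R v (s(s v))`), and `s` is injective (`s3`). So `#N(Z) ≥ #Z`. If `#N(Z) = #Z` then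
`N(Z) = s(Z) = s(s(Z))`; apply `s` twice to `s(Z) = s(s(Z))`: `Z = s(Z)` by `s3`; so `N(Z) = Z`,
`Z` is closed under `R`, hence everything by `Conn`, and `N(Z) = Z = univ`. -/
def S_EXP : Prop :=
  ∀ L : Lv, L.Conn → ∀ Z : Finset L.V, Z.Nonempty →
    (univ.filter (fun w => ∃ v ∈ Z, L.R v w)) = univ ∨
      Z.card + 1 ≤ (univ.filter (fun w => ∃ v ∈ Z, L.R v w)).card

/-- PIECE HAL (Hall's theorem; uses EXP). Given a word `w` of the next level (all blocks occur at
least 4 times) and a set `S` of at most three coordinates, there is `z` with `w j R z j` off `S`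
such that every block occurs at least 4 times among the `z j`, `j ∉ S`.

Proof. Mathlib's `Finset.all_card_le_biUnion_card_iff_exists_injective` with `ι = L.V × Fin 4`
and `t (v, a) = {j | j ∉ S ∧ L.R v (w j)}`. Hall's condition for `s ⊆ ι`: let `Z` be the set of
first coordinates of `s`; `#s ≤ 4 * #Z`. The union of the `t x`, `x ∈ s`, is
`{j | j ∉ S, w j ∈ N(Z)}` with `N(Z) = {w | ∃ v ∈ Z, R v w}`. If `Z` is empty, trivial. By EXP
either `N(Z) = univ` and the union is the complement of `S`, of size at least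
`N - 3 = 4 * card V + M - 3 ≥ 4 * card V ≥ 4 * #Z`, or `#N(Z) ≥ #Z + 1` and the union has at least
`(∑ v ∈ N(Z), #w⁻¹ v) - 3 ≥ 4 * (#Z + 1) - 3 ≥ 4 * #Z` elements.
So there is an injective `φ : L.V × Fin 4 → Fin N` with `φ (v, a) ∉ S` and `R v (w (φ (v, a)))`.
Let `z j = v` if `j = φ (v, a)` for some `v, a`, and `z j = s (w j)` otherwise (`R_s`). -/
def S_HAL : Prop :=
  ∀ (L : Lv) (M : ℕ), 3 ≤ M → L.Conn → ∀ w : Fin (L.N M) → L.V,
    (∀ v, 4 ≤ (univ.filter (fun j => w j = v)).card) → ∀ S : Finset (Fin (L.N M)), S.card ≤ 3 →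
    ∃ z : Fin (L.N M) → L.V, (∀ j, j ∉ S → L.R (w j) (z j)) ∧
      ∀ v, 4 ≤ (univ.filter (fun j => j ∉ S ∧ z j = v)).card

/-- PIECE CON (uses TOK). If the graph of a level is connected, so is that of the next one.

Proof. Let `Z` be a nonempty set of words of `L.next M` closed under `R`. Apply TOK with
`V = L.V`, `N = L.N M` and the set `Z' = {f | ∃ h, ⟨f, h⟩ ∈ Z}` of the underlying functions
(`4 * card V < N M` as `0 < M`). To show: if `f ∈ Z'`, the class of `f j` has more than 4
elements, and `v` is any block, then `update f j v ∈ Z'`. Note first that for every `x : L.V`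
and every `b`, `#{i | i ≠ j ∧ f i = b} ≥ 4`; so `update f j x` has all fibres of size at least 4.
Let `U` be the set of the `x` with `update f j x ∈ Z'`; it contains `f j`.
(1) `U` is closed under two steps: if `x ∈ U`, `R x y`, `R y x'` then `x' ∈ U`. Let `g` be the
function `i ↦ s (f i)` for `i ≠ j`, `g j = y`. All fibres of `g` have at least 4 elements
(`s (f i) = b ↔ f i = s (s b)` by `s3`, and use the note). By `next_R`, `R (update f j x) g`
(off `j`: `R_s`), so `g ∈ Z'`; and `R g (update f j x')` (off `j`: `R_symm`, `R_s`), so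
`update f j x' ∈ Z'`.
(2) If `x ∈ U` then `s (s x) ∈ U` (path `x, s x, s (s x)`). If `x ∈ U` and `R x y` then `y ∈ U`:
`s (s x) ∈ U`, and `s (s x), x, y` is a path of two steps (`R (s (s x)) (s (s (s x)))` and `s3`).
So `U` is closed under `R`, nonempty, hence everything by `L.Conn`. -/
def S_CON : Prop :=
  ∀ (L : Lv) (M : ℕ), 0 < M → L.Conn → (L.next M).Conn

/-- PIECE CNK (uses CON). All levels are connected.

Proof. Induction; `base`: `R a b ↔ a ≠ b` in `ZMod 3`. Let `Z` be nonempty and closed, `v ∈ Z`,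
`w` arbitrary: if `w ≠ v` then `R v w`, so `w ∈ Z`. -/
def S_CNK : Prop := ∀ k, (Lk k).Conn

/-- PIECE EXT (uses HAL). Let `u` be legal at the next level and `v` legal at level `L`, with
`v p = u p` and `v n ≠ u n` for all `n ≠ p`. Then there is `v'`, legal at the next level, with the
same properties, which agrees with `v` up to distance `L.len` from `p`.

Proof. Let `ℓ = L.len`, `N = L.N M`, `J = p / ℓ` (floor; `p` is in the block `J` of level `L`). For
every `t : ℤ` choose `w t : (L.next M).V` with the letters of `u` at the long block `t`; by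
`sub_iff`, `u ((t * N + j) * ℓ + i) = L.lt ((w t).1 j) i`. Choose also `b : ℤ → L.V` with
`v (q * ℓ + i) = L.lt (b q) i` for all `q` and `i < ℓ`. Let
`S t = {j : Fin N | |t * N + j - J| ≤ 1}`, at most 3 elements (`j ↦ t * N + j` is injective into
`{J - 1, J, J + 1}`). HAL gives `z t : Fin N → L.V` with `R ((w t).1 j) (z t j)` off `S t` and
`#{j ∉ S t, z t j = x} ≥ 4` for all `x`. Let `f t j = b (t * N + j)` for `j ∈ S t` and `z t j`
otherwise: all fibres have at least 4 elements, so it is an element of `(L.next M).V`.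
Define `v' n`, with `q = n / ℓ`, `i = n % ℓ`, `t = q / N`, `j = q % N`, as `L.lt (f t j) i`. Then
`v' ((t * N + j) * ℓ + i) = L.lt (f t j) i` for `j : Fin N`, `i < ℓ`, so `v'` is legal at the next
level by `sub_iff`. Every `n` is `(t * N + j) * ℓ + i`; if `j ∈ S t` then `v' n = v n`, and
otherwise `v' n = L.lt (z t j) i ≠ L.lt ((w t).1 j) i = u n`, and `n ≠ p` as `p` is in the block
`J`. Finally `|n - p| ≤ ℓ` gives `|n / ℓ - J| ≤ 1`, so `v' n = v n`; in particular
`v' p = v p = u p`, and for `n ≠ p` in a block of some `S t`, `v' n = v n ≠ u n`. -/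
def S_EXT : Prop :=
  ∀ (L : Lv) (M : ℕ), 3 ≤ M → L.Conn → ∀ (u v : ℤ → ZMod 3) (p : ℤ), Leg (L.next M) u →
    Leg L v → v p = u p → (∀ n, n ≠ p → v n ≠ u n) →
    ∃ v' : ℤ → ZMod 3, Leg (L.next M) v' ∧ v' p = u p ∧ (∀ n, n ≠ p → v' n ≠ u n) ∧
      ∀ n : ℤ, |n - p| ≤ L.len → v' n = v n

/-- PIECE CLO (topology). The sets are closed.

Proof. `{v | Leg L (fun n => v (n - z))}` is an intersection over `t : ℤ` of finite unions over
`x : L.V` (Fintype, `isClosed_iUnion_of_finite`) of intersections of the closed sets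
`{v | v (t * L.len + i - z) = L.lt x i}` (`ZMod 3` is discrete, `continuous_apply`).
`YS` is the intersection over `k` of `{y | ∃ z, ∀ j ≤ k, y.1 j = z}` (preimage of a set under the
continuous map `y ↦ fun j : Fin (k + 1) => y.1 j` to a discrete space; all `ZMod (ell j)` are
discrete; or: a finite union over the residues `z` modulo `ell k`, as only `z` modulo `ell k`
matters by `ell_dvd`) and of the sets `{y | y.1 k = z → Leg ..}`, `z : ℤ` (a union of the open and
closed set `y.1 k ≠ z` and of a closed set). `DS` is the intersection of two preimages of `YS` and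
of closed sets (`ZMod 3` is discrete, so `{d | d.2.1 n ≠ d.2.2 n}` is closed). -/
def S_CLO : Prop :=
  (∀ (L : Lv) (z : ℤ), IsClosed {v : Sq | Leg L (fun n => v (n - z))}) ∧ IsClosed YS ∧ IsClosed DS

/-- PIECE LIM (uses EXT, CNK, CLO). Extension to all levels: a sequence `v`, legal at level `k` for
the phases of `y ∈ YS`, with `v 0 = y.2 0` and `v n ≠ y.2 n` for `n ≠ 0`, can be changed outside
`[- ell k, ell k]` to `v'` with `(y.1, v', ..) ∈ DS`.

Proof. For `m ≥ k` let `C m` be the set of the `v' : Sq` with: `Leg (Lk m) (v' (· - z))` for all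
integers `z` with `y.1 m = z`; `v' 0 = y.2 0`; `v' n ≠ y.2 n` for `n ≠ 0`; `v' = v` on
`|n| ≤ ell k`. All `C m` are closed (CLO), hence compact in `Sq`; they decrease: take an integer
`z` with `y.1 j = z` for all `j ≤ m + 1` (first part of `y ∈ YS`); for `v' ∈ C (m + 1)`,
`Leg (Lk (m + 1)) (v' (· - z))` gives `Leg (Lk m) (v' (· - z))` by `Leg.down`, and any other `w`
with `y.1 m = w` differs from `z` by a multiple of `ell m` (`ZMod.intCast_eq_intCast_iff_dvd_sub`),
use `Leg.shift`. They are nonempty: `v ∈ C k`; given `v₁ ∈ C m`, take `z` for `m + 1`, and apply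
EXT with `L = Lk m`, `M = MM m`, `u = y.2 (· - z)` (legal at level `m + 1`, `y ∈ YS`),
`v₁ (· - z)`, `p = z`; get `v₂`, legal at level `m + 1`, and take `v' n = v₂ (n + z)`:
`|n| ≤ ell k ≤ ell m` gives `v' n = v₁ n = v n`. For other `w` with `y.1 (m + 1) = w` use
`Leg.shift` again. By compactness (`IsCompact.nonempty_iInter_of_sequence_nonempty_isCompact_isClosed`)
there is `v'` in all `C m`, and `(y.1, v') ∈ YS` (for levels below `k` use the decrease again). -/
def S_LIM : Prop :=
  ∀ y ∈ YS, ∀ (k : ℕ) (v : Sq),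
    (∀ z : ℤ, y.1 k = (z : ZMod (ell k)) → Leg (Lk k) (fun n => v (n - z))) →
    v 0 = y.2 0 → (∀ n : ℤ, n ≠ 0 → v n ≠ y.2 n) →
    ∃ v' : Sq, (y.1, y.2, v') ∈ DS ∧ ∀ n : ℤ, |n| ≤ ell k → v' n = v n

/-- PIECE SUR (uses LIM). Both projections are surjective.

Proof. `p1`: apply LIM with `k = 0` and `v n = if n = 0 then y.2 0 else y.2 n + 1`; legality at
level 0 (`base`, length 1) is automatic (`v = the letter`, `i = 0`), `a + 1 ≠ a` in `ZMod 3`.
`p2`: `DS` is symmetric: `(ζ, u, v) ∈ DS → (ζ, v, u) ∈ DS`. -/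
def S_SUR : Prop := Function.Surjective p1 ∧ Function.Surjective p2

/-- PIECE OPN (uses LIM). Both projections are open.

Proof. `p1`: let `W ⊆ DS` be open and `d = (ζ, u, v) ∈ W`. There is `k` such that every
`d' = (ζ', u', v') ∈ DS` with `ζ' j = ζ j` for `j ≤ k` and `u' = u`, `v' = v` on `|n| ≤ k` is in
`W` (product topology, discrete factors). Let `y' = (ζ', u') ∈ YS` agree with `(ζ, u)` for
`j ≤ k` and for `|n| ≤ 3 * ell k` (this is an open neighbourhood of `p1 d`). Claim: `y'` is in
`p1 '' W`. Let `z` be an integer with `ζ' j = z` for `j ≤ k`, `J = z / ell k` (floor), and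
`v₁ n = if |(n + z) / ell k - J| ≤ 1 then v n else u' n + 1`. It is legal at level `k` for `z`
(hence for all `w` with `ζ' k = w`, by `Leg.shift`): the blocks `q` with `|q - J| ≤ 1` are those of
`v` (`(ζ, v) ∈ YS`, same `z`), the other ones are `s` of those of `u'` (`hs`). Also
`v₁ 0 = v 0 = u 0 = u' 0`; for `n ≠ 0` in the three blocks, `|n| ≤ 3 * ell k`, so
`v₁ n = v n ≠ u n = u' n`; outside `u' n + 1 ≠ u' n`. LIM gives `v'` with `(ζ', u', v') ∈ DS` and
`v' = v₁ = v` on `|n| ≤ ell k` (`|n| ≤ ell k` gives `|(n + z) / ell k - J| ≤ 1`), and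
`k ≤ ell k` (`ell_ge`); so `(ζ', u', v') ∈ W`.
`p2`: the exchange `(ζ, u, v) ↦ (ζ, v, u)` is a homeomorphism of `DS` and `p2 = p1 ∘ exchange`. -/
def S_OPN : Prop := IsOpenMap p1 ∧ IsOpenMap p2

/-- PIECE MIN. Recurrence with a prescribed residue modulo `2 ^ k`.

Proof. Let `z'` be an integer with `y'.1 j = z'` for all `j ≤ k`, `ℓ = ell k`, `t0 = z' / ℓ`
(floor). By `y' ∈ YS` the sequence `y'.2 (· - z')` is legal at level `k`: there are blocks
`x0, x1, x2 : (Lk k).V` at `t0 - 1, t0, t0 + 1`. `fill` (level `k`, `3 ≤ MM k`) gives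
`V : (Lk (k+1)).V` with first three blocks `x0, x1, x2`; `fill` (level `k + 1`,
`2 ^ k ≤ MM (k + 1)`) gives `W : (Lk (k + 2)).V` whose first `2 ^ k` blocks are all `V`.
Let `z` be an integer with `y.1 j = z` for all `j ≤ k + 3`; `y.2 (· - z)` is legal at level
`k + 3`. Choose `t` large; the block `t` is some `Q : (Lk (k + 3)).V`, and `Q.1 j = W` for some
`j` (at least four of them). By `sub_iff` three times: with
`q = t * ell (k+3) + j * ell (k+2) - z`, for `e < 2 ^ k` and `i < 3 * ℓ`,
`y.2 (q + e * ell (k + 1) + i) = y'.2 ((t0 - 1) * ℓ - z' + i)` (it is a letter of `V`, position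
`i`, i.e. of `x0, x1` or `x2`). Put `n = q + e * ell (k+1) - (t0 - 1) * ℓ + z'`; then
`y.2 (i + n) = y'.2 i` for `(t0 - 1) * ℓ - z' ≤ i < (t0 + 2) * ℓ - z'`, in particular for
`|i| ≤ ℓ` (`t0 * ℓ ≤ z' < (t0 + 1) * ℓ`). `n ≥ 0` for `t` large. Phases: for `j ≤ k`, `ell j`
divides `ℓ`, `ell (k+1)`, ..., so `n ≡ z' - z` modulo `ell j` and `y.1 j + n = z + n = z' = y'.1 j`.
Residue: `ell (k+1)` is odd (`ell_odd`), so for a suitable `e < 2 ^ k`,
`e * ell (k+1) ≡ r - (q - (t0 - 1) * ℓ + z')` modulo `2 ^ k` (invert it in `ZMod (2 ^ k)`,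
`ZMod.unitOfCoprime`, and take `ZMod.val`). -/
def S_MIN : Prop :=
  ∀ y ∈ YS, ∀ y' ∈ YS, ∀ k r : ℕ, ∃ n : ℕ, n ≡ r [MOD 2 ^ k] ∧
    (∀ j ≤ k, y.1 j + (n : ZMod (ell j)) = y'.1 j) ∧
    ∀ i : ℤ, |i| ≤ ell k → y.2 (i + n) = y'.2 i

/-- PIECE NEM (uses CLO). `YS` is nonempty.

Proof. All phases 0. `C m = {v : Sq | Leg (Lk m) v}` is closed (CLO with `z = 0`), decreasing
(`Leg.down`), nonempty: take any `x : (Lk m).V` and `v n = (Lk m).lt x (n % ell m).toNat`. By
compactness (`IsCompact.nonempty_iInter_of_sequence_nonempty_isCompact_isClosed`) there is `v` in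
all `C m`. `(0, v) ∈ YS`: first part with `z = 0`; if `0 = (z : ZMod (ell k))` then `ell k ∣ z`,
use `Leg.shift`. -/
def S_NEM : Prop := YS.Nonempty

/-- PIECE SPL. The splitting theorem over a general base: this is
`Pool.Agent.W681.RC.exists_split` of `Pool/Agent/W681/RC/Split.lean` (starting file; copy it and
replace the base `ℕ → Bool` by a Hausdorff space `Y`; the proof is word for word the same,
`zeta : Y`). `z` is open, continuous, onto; fibres can be split (`Flip`); then `X` is the product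
of `Y` and the Cantor space over `Y`. -/
def S_SPL : Prop :=
  ∀ (X Y : Type) [TopologicalSpace X] [TopologicalSpace Y] [CompactSpace X] [T2Space X] [T2Space Y]
    (z : X → Y), Continuous z → IsOpenMap z → Function.Surjective z →
    (∀ F : X → List Bool, IsLocallyConstant F → ∃ e : X → Bool, IsLocallyConstant e ∧
      ∀ (b : Bool) (x : X), ∃ x', F x' = F x ∧ z x' = z x ∧ e x' = b) →
    (∃ V : ℕ → X → Bool, (∀ n, IsLocallyConstant (V n)) ∧ ∀ x x', (∀ n, V n x = V n x') → x = x') →
    ∃ Φ : X ≃ₜ Y × (ℕ → Bool), ∀ x, (Φ x).1 = z x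

/-- PIECE FLP. Fibres of `z ∘ fst` on `Q × (ℕ → Bool)` can be split.

Proof. `F` is locally constant on the compact space `Q × (ℕ → Bool)`. There is `n` such that
`F (q, c) = F (q, c')` whenever `c i = c' i` for all `i < n`: every point `(q, c)` has a
neighbourhood `O × {c' | c' = c on i < m}` on which `F` is constant; cover the compact space by
finitely many of them and let `n` be the largest `m` (or argue by contradiction with the finitely
many values of `F`, clopen fibres). Let `e (q, c) = c n`. Given `b` and `x = (q, c)` take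
`x' = (q, update c n b)`. -/
def S_FLP : Prop :=
  ∀ (Q Y : Type) [TopologicalSpace Q] [CompactSpace Q] (z : Q → Y)
    (F : Q × (ℕ → Bool) → List Bool), IsLocallyConstant F →
    ∃ e : Q × (ℕ → Bool) → Bool, IsLocallyConstant e ∧
      ∀ (b : Bool) (x : Q × (ℕ → Bool)), ∃ x', F x' = F x ∧ z x'.1 = z x.1 ∧ e x' = b

/-- PIECE SEP. Countably many locally constant Boolean functions separate the points of
`DS × (ℕ → Bool)`.

Proof. Coordinates: for `k : ℕ` and `a : ZMod (ell k)` the function `x.1.1.1 k = a`; for `n : ℤ`,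
`a : ZMod 3` the functions `x.1.1.2.1 n = a`, `x.1.1.2.2 n = a`; for `n : ℕ` the function `x.2 n`.
The index type `((Σ k, ZMod (ell k)) ⊕ (ℤ × ZMod 3)) ⊕ ((ℤ × ZMod 3) ⊕ ℕ)` is countable and
nonempty; take a surjection from `ℕ` (`exists_surjective_nat`). Each function is locally constant
(`decide` of equality in a discrete space composed with a continuous coordinate,
`IsLocallyConstant.iff_continuous` or `IsLocallyConstant.comp_continuous`). -/
def S_SEP : Prop :=
  ∃ V : ℕ → (DS × (ℕ → Bool)) → Bool, (∀ n, IsLocallyConstant (V n)) ∧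
    ∀ x x', (∀ n, V n x = V n x') → x = x'

/-- PIECE ODO (the binary odometer). There is a homeomorphism `R` of the Cantor space such that
the first `k` bits of `R^[n] c` are those of `c'` for all `n` in a residue class modulo `2 ^ k`.

Proof. `R c n = xor (c n) (decide (∀ i < n, c i = true))` with inverse
`c ↦ fun n => xor (c n) (decide (∀ i < n, c i = false))`. Let `val k c = ∑ i < k, (c i).toNat * 2 ^ i`
(so `val k c < 2 ^ k`, and it determines the first `k` bits); by induction on `k`,
`val k (R c) ≡ val k c + 1` modulo `2 ^ k`, more precisely `val k (R c) = val k c + 1` unless all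
the first `k` bits of `c` are `true`, and then `val k (R c) = 0`. So
`val k (R^[n] c) ≡ val k c + n` modulo `2 ^ k`; take `r = val k c' + (2 ^ k - val k c)`. -/
def S_ODO : Prop :=
  ∃ R : (ℕ → Bool) ≃ₜ (ℕ → Bool), ∀ (c c' : ℕ → Bool) (k : ℕ), ∃ r : ℕ, ∀ n : ℕ,
    n ≡ r [MOD 2 ^ k] → ∀ i < k, ((⇑R)^[n] c) i = c' i

/-- PIECE DNS (uses MIN). For every `R` as in ODO, `T0 × R` has dense forward orbits.

Proof. Let `x = (y, c)`, `x' = (y', c')` and `O` an open neighbourhood of `x'` in
`YS × (ℕ → Bool)`. There is `k` such that every `(y'', c'')` with `y''.1.1 j = y'.1.1 j` for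
`j ≤ k`, `y''.1.2 i = y'.1.2 i` for `|i| ≤ k` and `c'' i = c' i` for `i < k` is in `O` (product
topology, discrete factors). Take `r` from the property of `R` for `c, c', k` and `n` from MIN for
`y, y', k, r` (`k ≤ ell k` by `ell_ge`). By `T0_iter`, `(T0 × R)^[n] x = (T0^[n] y, R^[n] c)`
(`Prod.map_iterate`) is in `O`. -/
def S_DNS : Prop :=
  ∀ R : (ℕ → Bool) ≃ₜ (ℕ → Bool), (∀ (c c' : ℕ → Bool) (k : ℕ), ∃ r : ℕ, ∀ n : ℕ,
    n ≡ r [MOD 2 ^ k] → ∀ i < k, ((⇑R)^[n] c) i = c' i) →
  ∀ x : YS × (ℕ → Bool), Dense (Set.range (fun n : ℕ => (⇑(T0.prodCongr R))^[n] x))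

/-- PIECE FIN (uses CLO, SUR, OPN, NEM, SPL, FLP, SEP, ODO, DNS): the frozen statement S06623.

Proof. `X = DS × (ℕ → Bool)`: compact (closed in a compact space), metrizable
(`TopologicalSpace.metrizableSpaceMetric`), nonempty (NEM and SUR). For `i = 1, 2` the map
`z_i = p_i ∘ fst : X → YS` is continuous, open, onto; by FLP, SEP, SPL there are homeomorphisms
`Φ_i : X ≃ₜ YS × (ℕ → Bool)` with `(Φ_i x).1 = p_i x.1`. Put
`T = Φ_1 ; (T0 × R) ; Φ_1⁻¹`, `S = Φ_2 ; (T0 × R) ; Φ_2⁻¹`. Forward orbits are dense by DNS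
(images of dense sets under homeomorphisms). `p_1 ((T^[n] x).1) = T0^[n] (p_1 x.1)`, so by `T0_iter`
the first sequence of `T^[n] x` at time 0 is the letter `u n` of the first sequence `u` of `x`;
same for `S` and the second sequence `v`. The sets `{x' | u' 0 = u 0}` and `{x' | v' 0 = v 0}` are
open neighbourhoods of `x`; take `ε` for both. If `T^[n] x`, `S^[n] x` are within `ε` of `x` with
`n > 0`, then `u n = u 0 = v 0 = v n`, contradicting `u n ≠ v n`. -/
def S_FIN : Prop :=
    ∃ (X : Type) (_ : MetricSpace X) (_ : CompactSpace X) (_ : Nonempty X) (T S : X ≃ₜ X),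
      (∀ x : X, Dense (Set.range (fun n : ℕ => (⇑T)^[n] x))) ∧
      (∀ x : X, Dense (Set.range (fun n : ℕ => (⇑S)^[n] x))) ∧
      ∀ x : X, ¬ (∀ ε : ℝ, 0 < ε →
        ∃ n : ℕ, 0 < n ∧ dist ((⇑T)^[n] x) x < ε ∧ dist ((⇑S)^[n] x) x < ε)

end Run7.h979.JR
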