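import Pool.Agent.Run7.h979.JR.Iface

set_option autoImplicit false

noncomputable section

namespace Run7.h979.JR

open Finset Classical Topology

theorem nb_ph {O : Set Ph} (hO : IsOpen O) {x : Ph} (hx : x ∈ O) :
    ∃ k : ℕ, ∀ x' : Ph, (∀ j ≤ k, x' j = x j) → x' ∈ O := by
  obtain ⟨I, u, h1, h2⟩ := isOpen_pi_iff.1 hO x hx
  refine ⟨I.sup id, fun x' hx' => h2 ?_⟩
  intro j hj
  rw [hx' j (Finset.le_sup (f := id) hj)]
  exact (h1 j hj).2

theorem nb_sq {O : Set Sq} (hO : IsOpen O) {x : Sq} (hx : x ∈ O) :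
    ∃ k : ℕ, ∀ x' : Sq, (∀ n : ℤ, |n| ≤ k → x' n = x n) → x' ∈ O := by
  obtain ⟨I, u, h1, h2⟩ := isOpen_pi_iff.1 hO x hx
  refine ⟨I.sup Int.natAbs, fun x' hx' => h2 ?_⟩
  intro n hn
  have h3 : n.natAbs ≤ I.sup Int.natAbs := Finset.le_sup (f := Int.natAbs) hn
  rw [hx' n (by rw [Int.abs_eq_natAbs]; exact_mod_cast h3)]
  exact (h1 n hn).2

theorem nb_all {O : Set (Ph × Sq × Sq)} (hO : IsOpen O) {x : Ph × Sq × Sq} (hx : x ∈ O) :
    ∃ k : ℕ, ∀ x' : Ph × Sq × Sq, (∀ j ≤ k, x'.1 j = x.1 j) →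
      (∀ n : ℤ, |n| ≤ k → x'.2.1 n = x.2.1 n) → (∀ n : ℤ, |n| ≤ k → x'.2.2 n = x.2.2 n) →
      x' ∈ O := by
  obtain ⟨U, V, hU, hV, hxU, hxV, hUV⟩ := isOpen_prod_iff.1 hO x.1 x.2 hx
  obtain ⟨V1, V2, hV1, hV2, hxV1, hxV2, hVV⟩ := isOpen_prod_iff.1 hV x.2.1 x.2.2 hxV
  obtain ⟨k1, h1⟩ := nb_ph hU hxU
  obtain ⟨k2, h2⟩ := nb_sq hV1 hxV1
  obtain ⟨k3, h3⟩ := nb_sq hV2 hxV2
  refine ⟨k1 + k2 + k3, fun x' ha hb hc => hUV ⟨?_, hVV ⟨?_, ?_⟩⟩⟩
  · exact h1 _ fun j hj => ha j (by omega)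
  · exact h2 _ fun n hn => hb n (by push_cast; omega)
  · exact h3 _ fun n hn => hc n (by push_cast; omega)

theorem win_open (y : YS) (k : ℕ) (m : ℕ) :
    {y' : YS | (∀ j ≤ k, y'.1.1 j = y.1.1 j) ∧ ∀ n : ℤ, |n| ≤ m → y'.1.2 n = y.1.2 n} ∈ 𝓝 y := by
  have h1 : {y' : YS | (∀ j ≤ k, y'.1.1 j = y.1.1 j) ∧ ∀ n : ℤ, |n| ≤ m → y'.1.2 n = y.1.2 n} =
      (⋂ j ∈ Finset.range (k + 1), {y' : YS | y'.1.1 j = y.1.1 j}) ∩
      (⋂ n ∈ Finset.Icc (-(m : ℤ)) m, {y' : YS | y'.1.2 n = y.1.2 n}) := by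
    ext y'
    simp only [Set.mem_ofPred_eq, Set.mem_inter_iff, Set.mem_iInter, Finset.mem_range,
      Finset.mem_Icc, abs_le]
    constructor
    · rintro ⟨h1, h2⟩
      exact ⟨fun j hj => h1 j (by omega), fun n hn => h2 n hn⟩
    · rintro ⟨h1, h2⟩
      exact ⟨fun j hj => h1 j (by omega), fun n hn => h2 n hn⟩
  rw [h1]
  refine Filter.inter_mem ?_ ?_
  · rw [Filter.biInter_finset_mem]
    intro j _
    have hc : Continuous fun y' : YS => y'.1.1 j :=
      (continuous_apply j).comp (continuous_fst.comp continuous_subtype_val)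
    exact hc.continuousAt.preimage_mem_nhds ((isOpen_discrete {y.1.1 j}).mem_nhds rfl)
  · rw [Filter.biInter_finset_mem]
    intro n _
    have hc : Continuous fun y' : YS => y'.1.2 n :=
      (continuous_apply n).comp (continuous_snd.comp continuous_subtype_val)
    exact hc.continuousAt.preimage_mem_nhds ((isOpen_discrete {y.1.2 n}).mem_nhds rfl)

theorem leg_indep {k : ℕ} {v : Sq} {z w : ℤ} (h : Leg (Lk k) (fun n => v (n - z)))
    (hzw : (z : ZMod (ell k)) = (w : ZMod (ell k))) : Leg (Lk k) (fun n => v (n - w)) := by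
  obtain ⟨c, hc⟩ := (ZMod.intCast_eq_intCast_iff_dvd_sub _ _ _).1 hzw
  have h1 := h.shift (-c)
  have h2 : (fun n : ℤ => v (n + -c * ((Lk k).len : ℤ) - z)) = fun n => v (n - w) := by
    funext n
    congr 1
    have h3 : ((Lk k).len : ℤ) = (ell k : ℤ) := rfl
    rw [h3]
    linear_combination hc
  rw [← h2]
  exact h1

theorem ne_add_one (a : ZMod 3) : a + 1 ≠ a := by revert a; decide

theorem open_p1 (hL : S_LIM) : IsOpenMap p1 := by
  intro W hW
  rw [isOpen_iff_mem_nhds]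
  rintro y0 ⟨d, hdW, rfl⟩
  obtain ⟨O, hO, rfl⟩ := isOpen_induced_iff.1 hW
  obtain ⟨k, hk⟩ := nb_all hO hdW
  filter_upwards [win_open (p1 d) k (3 * ell k)] with y' hy'
  obtain ⟨hy1, hy2⟩ := hy'
  have hζ : ∀ j ≤ k, y'.1.1 j = d.1.1 j := hy1
  have hu : ∀ n : ℤ, |n| ≤ ((3 * ell k : ℕ) : ℤ) → y'.1.2 n = d.1.2.1 n := hy2
  obtain ⟨⟨z, hz⟩, hleg⟩ := y'.2 k
  have hzk := hz k le_rfl
  have hL1 := hleg z hzk
  have hvS := (d.2.2.1 k).2 z (by
    show d.1.1 k = _
    rw [← hζ k le_rfl]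
    exact hzk)
  have hl : (0 : ℤ) < (ell k : ℤ) := by exact_mod_cast ell_pos k
  set J : ℤ := z / (ell k : ℤ) with hJ
  let v1 : Sq := fun n => if |(n + z) / (ell k : ℤ) - J| ≤ 1 then d.1.2.2 n else y'.1.2 n + 1
  have hJ1 : J * (ell k : ℤ) ≤ z := Int.ediv_mul_le z hl.ne'
  have hJ2 : z < (J + 1) * (ell k : ℤ) := Int.lt_ediv_add_one_mul_self z hl
  have hwin : ∀ n : ℤ, |(n + z) / (ell k : ℤ) - J| ≤ 1 → |n| ≤ ((3 * ell k : ℕ) : ℤ) := by
    intro n hn
    have h1 : (n + z) / (ell k : ℤ) * (ell k : ℤ) ≤ n + z := Int.ediv_mul_le _ hl.ne'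
    have h2 : n + z < ((n + z) / (ell k : ℤ) + 1) * (ell k : ℤ) :=
      Int.lt_ediv_add_one_mul_self _ hl
    rw [abs_le] at hn ⊢
    push_cast
    constructor <;> nlinarith
  have hag0 : ∀ n : ℤ, |n| ≤ ell k → |(n + z) / (ell k : ℤ) - J| ≤ 1 := by
    intro n hn
    rw [abs_le] at hn ⊢
    have h1 : z / (ell k : ℤ) - 1 ≤ (n + z) / (ell k : ℤ) := by
      have h2 : (z - ell k) / (ell k : ℤ) = z / (ell k : ℤ) - 1 := by
        rw [Int.sub_ediv_of_dvd _ dvd_rfl, Int.ediv_self hl.ne']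
      rw [← h2]
      exact Int.ediv_le_ediv hl (by omega)
    have h3 : (n + z) / (ell k : ℤ) ≤ z / (ell k : ℤ) + 1 := by
      have h2 : (z + ell k) / (ell k : ℤ) = z / (ell k : ℤ) + 1 := by
        rw [Int.add_ediv_of_dvd_right dvd_rfl, Int.ediv_self hl.ne']
      rw [← h2]
      exact Int.ediv_le_ediv hl (by omega)
    constructor <;> omega
  have hv1leg : Leg (Lk k) (fun n => v1 (n - z)) := by
    intro t
    by_cases ht : |t - J| ≤ 1
    · obtain ⟨x, hx⟩ := hvS t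
      refine ⟨x, fun i hi => ?_⟩
      rw [← hx i hi]
      have h1 : (t * ((Lk k).len : ℤ) + i - z + z) / (ell k : ℤ) = t := by
        have h2 : t * ((Lk k).len : ℤ) + i - z + z = i + t * (ell k : ℤ) := by
          show t * (ell k : ℤ) + i - z + z = _
          ring
        have hi' : i < ell k := hi
        rw [h2, Int.add_mul_ediv_right _ _ hl.ne', Int.ediv_eq_zero_of_lt (by omega) (by omega)]
        ring
      show (if _ then _ else _) = _
      rw [h1, if_pos ht]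
    · obtain ⟨x, hx⟩ := hL1 t
      refine ⟨(Lk k).s x, fun i hi => ?_⟩
      rw [(Lk k).hs, ← hx i hi]
      have h1 : (t * ((Lk k).len : ℤ) + i - z + z) / (ell k : ℤ) = t := by
        have h2 : t * ((Lk k).len : ℤ) + i - z + z = i + t * (ell k : ℤ) := by
          show t * (ell k : ℤ) + i - z + z = _
          ring
        have hi' : i < ell k := hi
        rw [h2, Int.add_mul_ediv_right _ _ hl.ne', Int.ediv_eq_zero_of_lt (by omega) (by omega)]
        ring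
      show (if _ then _ else _) = _
      rw [h1, if_neg ht]
  have h0 : v1 0 = y'.1.2 0 := by
    have h1 := hag0 0 (by rw [abs_zero]; exact hl.le)
    show (if _ then _ else _) = _
    rw [if_pos h1, hu 0 (by rw [abs_zero]; positivity)]
    exact d.2.2.2.1.symm
  have hne : ∀ n : ℤ, n ≠ 0 → v1 n ≠ y'.1.2 n := by
    intro n hn
    show (if _ then _ else _) ≠ _
    by_cases h1 : |(n + z) / (ell k : ℤ) - J| ≤ 1
    · rw [if_pos h1, hu n (hwin n h1)]
      exact (d.2.2.2.2 n hn).symm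
    · rw [if_neg h1]
      exact ne_add_one _
  obtain ⟨v', hv', hag⟩ := hL y'.1 y'.2 k v1
    (fun w hw => leg_indep hv1leg (by rw [← hzk, hw])) h0 hne
  have hk' : (k : ℤ) ≤ ell k := by
    have := ell_ge k
    omega
  refine ⟨⟨_, hv'⟩, ?_, ?_⟩
  · apply hk
    · exact hζ
    · intro n hn
      exact hu n (by push_cast; omega)
    · intro n hn
      show v' n = d.1.2.2 n
      rw [hag n (by omega)]
      show (if _ then _ else _) = _
      rw [if_pos (hag0 n (by omega))]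
  · rfl

/-- the exchange -/
def exch : DS ≃ₜ DS where
  toFun d := ⟨(d.1.1, d.1.2.2, d.1.2.1), d.2.2.1, d.2.1, d.2.2.2.1.symm,
    fun n hn => (d.2.2.2.2 n hn).symm⟩
  invFun d := ⟨(d.1.1, d.1.2.2, d.1.2.1), d.2.2.1, d.2.1, d.2.2.2.1.symm,
    fun n hn => (d.2.2.2.2 n hn).symm⟩
  left_inv _ := rfl
  right_inv _ := rfl
  continuous_toFun := by
    refine Continuous.subtype_mk ?_ _
    exact (continuous_fst.comp continuous_subtype_val).prodMk
      ((continuous_snd.comp (continuous_snd.comp continuous_subtype_val)).prodMk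
        (continuous_fst.comp (continuous_snd.comp continuous_subtype_val)))
  continuous_invFun := by
    refine Continuous.subtype_mk ?_ _
    exact (continuous_fst.comp continuous_subtype_val).prodMk
      ((continuous_snd.comp (continuous_snd.comp continuous_subtype_val)).prodMk
        (continuous_fst.comp (continuous_snd.comp continuous_subtype_val)))

theorem t_OPN (hL : S_LIM) : S_OPN := by
  refine ⟨open_p1 hL, ?_⟩
  have h : p2 = p1 ∘ exch := rfl
  rw [h]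
  exact (open_p1 hL).comp exch.isOpenMap

end Run7.h979.JR
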