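import Pool.Agent.Run7.h979.JR.Iface

/-!
# Open maps with splittable fibres are product projections

Copy of Pool/Agent/W681/RC/Split.lean (starting file) with a general Hausdorff base.
-/

set_option autoImplicit false

namespace Run7.h979.JR.Split

open Filter Topology

section

variable {X Y : Type} [TopologicalSpace X] [TopologicalSpace Y]

/-- the invariant of the construction -/
def Inv (z : X → Y) (n : ℕ) (F : X → List Bool) : Prop :=
  IsLocallyConstant F ∧ ∀ (ζ : Y) (l : List Bool), l.length = n → ∃ x, z x = ζ ∧ F x = l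

/-- fibres can be split -/
def Flip (z : X → Y) : Prop :=
  ∀ F : X → List Bool, IsLocallyConstant F → ∃ e : X → Bool, IsLocallyConstant e ∧
    ∀ (b : Bool) (x : X), ∃ x', F x' = F x ∧ z x' = z x ∧ e x' = b

lemma split_step [CompactSpace X] [T2Space Y] {z : X → Y} (hz : Continuous z) (hzo : IsOpenMap z)
    (hfl : Flip z) {n : ℕ} {F : X → List Bool} (hF : Inv z n F) {V : X → Bool}
    (hV : IsLocallyConstant V) :
    ∃ c : X → Bool, IsLocallyConstant c ∧ Inv z (n + 1) (fun x => c x :: F x) ∧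
      ∀ x x', z x = z x' → F x = F x' → c x = c x' → V x = V x' := by
  classical
  obtain ⟨hFl, hFs⟩ := hF
  obtain ⟨e, he, hflip⟩ := hfl F hFl
  let A : Bool → List Bool → Y → Prop := fun b l ζ => ∃ x, z x = ζ ∧ F x = l ∧ V x = b
  let A2 : List Bool → Y → Prop := fun l ζ => A true l ζ ∧ A false l ζ
  have hA : ∀ b l, IsClopen {ζ | A b l ζ} := by
    intro b l
    have h1 : {ζ | A b l ζ} = z '' (F ⁻¹' {l} ∩ V ⁻¹' {b}) := by
      ext ζ
      constructor
      · rintro ⟨x, h1, h2, h3⟩
        exact ⟨x, ⟨h2, h3⟩, h1⟩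
      · rintro ⟨x, ⟨h2, h3⟩, h1⟩
        exact ⟨x, h1, h2, h3⟩
    have h2 : IsClopen (F ⁻¹' {l} ∩ V ⁻¹' {b}) :=
      (hFl.isClopen_fiber l).inter (hV.isClopen_fiber b)
    rw [h1]
    exact ⟨(h2.isClosed.isCompact.image hz).isClosed, hzo _ h2.isOpen⟩
  have hA2 : ∀ l (x : X), ∀ᶠ x' in 𝓝 x, (A2 l (z x') ↔ A2 l (z x)) := by
    intro l x
    have h1 : IsClopen {ζ | A2 l ζ} := (hA true l).inter (hA false l)
    have h2 : IsClopen (z ⁻¹' {ζ | A2 l ζ}) := h1.preimage hz
    by_cases h : A2 l (z x)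
    · filter_upwards [h2.isOpen.mem_nhds (show x ∈ z ⁻¹' {ζ | A2 l ζ} from h)] with x' hx'
      exact ⟨fun _ => h, fun _ => hx'⟩
    · filter_upwards [h2.compl.isOpen.mem_nhds (show x ∈ (z ⁻¹' {ζ | A2 l ζ})ᶜ from h)] with x' hx'
      exact ⟨fun h3 => absurd h3 hx', fun h3 => absurd h3 h⟩
  let c : X → Bool := fun x => if A2 (F x) (z x) then V x else e x
  have hc : IsLocallyConstant c := by
    rw [IsLocallyConstant.iff_eventually_eq]
    intro x
    filter_upwards [hFl.eventually_eq x, hV.eventually_eq x, he.eventually_eq x,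
      hA2 (F x) x] with x' h1 h2 h3 h4
    show (if A2 (F x') (z x') then V x' else e x') = if A2 (F x) (z x) then V x else e x
    rw [h1, h2, h3]
    exact if_congr h4 rfl rfl
  refine ⟨c, hc, ⟨?_, ?_⟩, ?_⟩
  · rw [IsLocallyConstant.iff_eventually_eq]
    intro x
    filter_upwards [hFl.eventually_eq x, hc.eventually_eq x] with x' h1 h2
    show c x' :: F x' = c x :: F x
    rw [h1, h2]
  · intro ζ l' hl'
    obtain ⟨b, l, rfl⟩ : ∃ b l, l' = b :: l := by
      cases l' with
      | nil => simp at hl'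
      | cons b l => exact ⟨b, l, rfl⟩
    have hl : l.length = n := by simpa using hl'
    by_cases hζ : A2 l ζ
    · have : A b l ζ := by cases b; exacts [hζ.2, hζ.1]
      obtain ⟨x, h1, h2, h3⟩ := this
      refine ⟨x, h1, ?_⟩
      have h4 : c x = V x := by
        show (if A2 (F x) (z x) then V x else e x) = _
        rw [h1, h2, if_pos hζ]
      show c x :: F x = b :: l
      rw [h4, h2, h3]
    · obtain ⟨x0, h1, h2⟩ := hFs ζ l hl
      obtain ⟨x, h3, h4, h5⟩ := hflip b x0
      refine ⟨x, h4.trans h1, ?_⟩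
      have h6 : c x = e x := by
        show (if A2 (F x) (z x) then V x else e x) = _
        rw [h4, h1, h3, h2, if_neg hζ]
      show c x :: F x = b :: l
      rw [h6, h5, h3, h2]
  · intro x x' h1 h2 h3
    by_cases hζ : A2 (F x) (z x)
    · have h4 : c x = V x := by
        show (if A2 (F x) (z x) then V x else e x) = _
        rw [if_pos hζ]
      have h5 : c x' = V x' := by
        show (if A2 (F x') (z x') then V x' else e x') = _
        rw [← h1, ← h2, if_pos hζ]
      rw [← h4, ← h5, h3]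
    · by_contra hne
      apply hζ
      rcases hb : V x with _ | _
      · have hb' : V x' = true := by
          rw [hb] at hne
          exact Bool.eq_true_of_not_eq_false (fun h => hne h.symm)
        exact ⟨⟨x', h1.symm, h2.symm, hb'⟩, ⟨x, rfl, rfl, hb⟩⟩
      · have hb' : V x' = false := by
          rw [hb] at hne
          exact Bool.eq_false_of_not_eq_true (fun h => hne h.symm)
        exact ⟨⟨x, rfl, rfl, hb⟩, ⟨x', h1.symm, h2.symm, hb'⟩⟩

/-- the sequence of coordinates -/
lemma split_seq [CompactSpace X] [T2Space Y] {z : X → Y} (hz : Continuous z) (hzo : IsOpenMap z)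
    (hzs : Function.Surjective z) (hfl : Flip z) (V : ℕ → X → Bool)
    (hV : ∀ n, IsLocallyConstant (V n)) :
    ∃ (c : ℕ → X → Bool) (F : ℕ → X → List Bool), (∀ n, IsLocallyConstant (c n)) ∧
      (∀ n, Inv z n (F n)) ∧ (F 0 = fun _ => []) ∧
      (∀ n, F (n + 1) = fun x => c n x :: F n x) ∧
      ∀ n, ∀ x x', z x = z x' → F n x = F n x' → c n x = c n x' → V n x = V n x' := by
  classical
  choose g hg1 hg2 hg3 using fun (n : ℕ) (F : {F // Inv z n F}) =>
    split_step hz hzo hfl F.2 (hV n)
  have hI0 : Inv z 0 (fun _ => []) := by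
    refine ⟨IsLocallyConstant.const _, ?_⟩
    intro ζ l hl
    obtain ⟨x, hx⟩ := hzs ζ
    exact ⟨x, hx, (List.length_eq_zero_iff.1 hl).symm⟩
  let Q : ∀ n : ℕ, {F // Inv z n F} := fun n =>
    Nat.rec ⟨fun _ => [], hI0⟩ (fun n F => ⟨fun x => g n F x :: F.1 x, hg2 n F⟩) n
  refine ⟨fun n => g n (Q n), fun n => (Q n).1, fun n => hg1 n (Q n), fun n => (Q n).2,
    rfl, fun n => rfl, fun n => hg3 n (Q n)⟩

/-- the reversed initial word of `a` -/
def rW (a : ℕ → Bool) : ℕ → List Bool
  | 0 => []
  | n + 1 => a n :: rW a n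

lemma rW_length (a : ℕ → Bool) (n : ℕ) : (rW a n).length = n := by
  induction n with
  | zero => rfl
  | succ n ih => simp [rW, ih]

/-- the splitting theorem -/
theorem exists_split [CompactSpace X] [T2Space X] [T2Space Y] {z : X → Y} (hz : Continuous z)
    (hzo : IsOpenMap z) (hzs : Function.Surjective z) (hfl : Flip z) (V : ℕ → X → Bool)
    (hV : ∀ n, IsLocallyConstant (V n)) (hsep : ∀ x x', (∀ n, V n x = V n x') → x = x') :
    ∃ Φ : X ≃ₜ Y × (ℕ → Bool), ∀ x, (Φ x).1 = z x := by
  classical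
  obtain ⟨c, F, hc, hF, hF0, hcF, hdet⟩ := split_seq hz hzo hzs hfl V hV
  let φ : X → Y × (ℕ → Bool) := fun x => (z x, fun n => c n x)
  have hφ : Continuous φ := hz.prodMk (continuous_pi fun n => (hc n).continuous)
  have hinj : Function.Injective φ := by
    intro x x' h
    have h1 : z x = z x' := congrArg Prod.fst h
    have h2 : ∀ n, c n x = c n x' := fun n => congrFun (congrArg Prod.snd h) n
    have h3 : ∀ n, F n x = F n x' := by
      intro n
      induction n with
      | zero => rw [hF0]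
      | succ n ih =>
        rw [hcF n]
        show c n x :: F n x = c n x' :: F n x'
        rw [h2, ih]
    exact hsep x x' fun n => hdet n x x' h1 (h3 n) (h2 n)
  have hsurj : Function.Surjective φ := by
    rintro ⟨ζ, a⟩
    let K : ℕ → Set X := fun n => {x | z x = ζ ∧ F n x = rW a n}
    have hKcl : ∀ n, IsClosed (K n) := by
      intro n
      exact (isClosed_eq hz continuous_const).inter ((hF n).1.isClosed_fiber (rW a n))
    have hKne : ∀ n, (K n).Nonempty := by
      intro n
      obtain ⟨x, h1, h2⟩ := (hF n).2 ζ (rW a n) (rW_length a n)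
      exact ⟨x, h1, h2⟩
    have hKnest : ∀ n, K (n + 1) ⊆ K n := by
      rintro n x ⟨h1, h2⟩
      refine ⟨h1, ?_⟩
      rw [hcF n] at h2
      exact (List.cons.inj h2).2
    obtain ⟨x, hx⟩ := IsCompact.nonempty_iInter_of_sequence_nonempty_isCompact_isClosed K hKnest
      hKne (hKcl 0).isCompact hKcl
    rw [Set.mem_iInter] at hx
    refine ⟨x, Prod.ext (hx 0).1 ?_⟩
    funext n
    have h2 := (hx (n + 1)).2
    rw [hcF n] at h2
    exact (List.cons.inj h2).1
  let Φ := hφ.homeoOfEquivCompactToT2 (f := Equiv.ofBijective φ ⟨hinj, hsurj⟩)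
  exact ⟨Φ, fun x => rfl⟩

end

end Run7.h979.JR.Split

namespace Run7.h979.JR

theorem t_SPL : S_SPL := by
  intro X Y _ _ _ _ _ z hz hzo hzs hfl hV
  obtain ⟨V, hV, hsep⟩ := hV
  exact Split.exists_split hz hzo hzs hfl V hV hsep

end Run7.h979.JR
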