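import Pool.Agent.Run7.h979.JR.OPN

set_option autoImplicit false

noncomputable section

namespace Run7.h979.JR

open Finset Classical Topology

theorem surj_p1 (hL : S_LIM) : Function.Surjective p1 := by
  intro y
  let v : Sq := fun n => if n = 0 then y.1.2 0 else y.1.2 n + 1
  obtain ⟨v', hv', -⟩ := hL y.1 y.2 0 v (by
    intro z _ t
    refine ⟨v (t * ((Lk 0).len : ℤ) + (0 : ℕ) - z), fun i hi => ?_⟩
    have hi0 : i = 0 := by
      have h1 : i < 1 := hi
      omega
    subst hi0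
    rfl) (by
    show (if (0 : ℤ) = 0 then _ else _) = _
    rw [if_pos rfl]) (by
    intro n hn
    show (if n = 0 then _ else _) ≠ _
    rw [if_neg hn]
    exact ne_add_one _)
  exact ⟨⟨_, hv'⟩, rfl⟩

theorem t_SUR (hL : S_LIM) : S_SUR := by
  refine ⟨surj_p1 hL, ?_⟩
  intro y
  obtain ⟨d, hd⟩ := surj_p1 hL y
  refine ⟨exch d, ?_⟩
  rw [← hd]
  rfl

end Run7.h979.JR
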